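import Pool.Agent.Helper5.ST.GoalsA

/-!
# LIM: the return probabilities tend to zero
-/

namespace Pool.Agent.Helper90.ST

open Pool.Agent.Helper5.ST Filter Topology
open scoped InnerProductSpace

universe u

theorem inner_pow_add {V : Type u} [NormedAddCommGroup V] [InnerProductSpace ℝ V]
    (Q : V →ₗ[ℝ] V) (hsym : ∀ v v', ⟪Q v, v'⟫_ℝ = ⟪v, Q v'⟫_ℝ) (i j : ℕ) (v w : V) :
    ⟪(Q ^ (i + j)) v, w⟫_ℝ = ⟪(Q ^ i) v, (Q ^ j) w⟫_ℝ := by
  induction j generalizing w with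
  | zero => simp
  | succ j ih =>
    rw [← add_assoc, pow_succ' Q (i + j), Module.End.mul_apply, hsym, ih, pow_succ Q j,
      Module.End.mul_apply]

theorem lim (hseq : SSeq.{u}) : SLim.{u} := by
  intro V _ _ _ Q hsym hpos hnorm hfix δ
  have hle : ∀ v, ⟪Q v, v⟫_ℝ ≤ ‖v‖ ^ 2 := by
    intro v
    calc ⟪Q v, v⟫_ℝ ≤ ‖Q v‖ * ‖v‖ := real_inner_le_norm _ _
      _ ≤ ‖v‖ * ‖v‖ := by gcongr; exact hnorm v
      _ = ‖v‖ ^ 2 := by ring
  set q : ℕ → ℝ := fun j => ⟪(Q ^ j) δ, δ⟫_ℝ with hq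
  have hr := (hseq V Q hsym hpos hle δ (fun j => q j - q (j + 1)) (fun j => rfl)).1
  have hadd : ∀ i j, q (i + j) = ⟪(Q ^ i) δ, (Q ^ j) δ⟫_ℝ := fun i j =>
    inner_pow_add Q hsym i j δ δ
  have hanti : Antitone q := antitone_nat_of_succ_le (fun j => by linarith [hr j])
  have hq0 : ∀ j, 0 ≤ q j := by
    intro j
    rcases Nat.even_or_odd' j with ⟨i, rfl | rfl⟩
    · rw [two_mul, hadd]
      exact real_inner_self_nonneg
    · have : 2 * i + 1 = (i + 1) + i := by ring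
      rw [this, hadd, pow_succ', Module.End.mul_apply]
      exact hpos _
  obtain ⟨L, hL⟩ : ∃ L, Tendsto q atTop (𝓝 L) :=
    ⟨_, tendsto_atTop_ciInf hanti ⟨0, by rintro _ ⟨j, rfl⟩; exact hq0 j⟩⟩
  have hLle : ∀ j, L ≤ q j := fun j => hanti.le_of_tendsto hL j
  have hdist : ∀ i j, ‖(Q ^ i) δ - (Q ^ j) δ‖ ^ 2 = q (i + i) - 2 * q (i + j) + q (j + j) := by
    intro i j
    rw [norm_sub_sq_real, hadd, hadd, hadd, real_inner_self_eq_norm_sq, real_inner_self_eq_norm_sq]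
  have hc : CauchySeq (fun j : ℕ => (Q ^ j) δ) := by
    refine cauchySeq_of_le_tendsto_0 (fun N => √(2 * (q N - L))) ?_ ?_
    · intro n m N hn hm
      rw [dist_eq_norm]
      apply Real.le_sqrt_of_sq_le
      rw [hdist]
      have h1 : q (n + n) ≤ q N := hanti (by omega)
      have h2 : q (m + m) ≤ q N := hanti (by omega)
      have h3 := hLle (n + m)
      linarith
    · have h1 : Tendsto (fun N => √(2 * (q N - L))) atTop (𝓝 (√(2 * (L - L)))) :=
        ((hL.sub_const L).const_mul 2).sqrt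
      simpa using h1
  obtain ⟨v, hv⟩ := cauchySeq_tendsto_of_complete hc
  have hQc : Continuous Q :=
    (LinearMap.mkContinuous Q 1 (fun x => by rw [one_mul]; exact hnorm x)).continuous
  have hQv : Q v = v := by
    have h1 : Tendsto (fun j : ℕ => Q ((Q ^ j) δ)) atTop (𝓝 (Q v)) := (hQc.tendsto v).comp hv
    have h2 : Tendsto (fun j : ℕ => (Q ^ (j + 1)) δ) atTop (𝓝 v) := (tendsto_add_atTop_iff_nat 1).2 hv
    have h3 : (fun j : ℕ => Q ((Q ^ j) δ)) = (fun j : ℕ => (Q ^ (j + 1)) δ) := by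
      funext j
      rw [pow_succ', Module.End.mul_apply]
    rw [h3] at h1
    exact tendsto_nhds_unique h1 h2
  have hv0 : v = 0 := hfix v hQv
  subst hv0
  have h4 : Tendsto (fun j : ℕ => q (j + j)) atTop (𝓝 0) := by
    have h5 : (fun j : ℕ => q (j + j)) = fun j : ℕ => ‖(Q ^ j) δ‖ ^ 2 := by
      funext j
      rw [hadd, real_inner_self_eq_norm_sq]
    rw [h5]
    have := (hv.norm).pow 2
    simpa using this
  have h6 : Tendsto (fun j : ℕ => q (j + j)) atTop (𝓝 L) :=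
    hL.comp (tendsto_atTop_mono (fun j => by omega : ∀ j : ℕ, j ≤ j + j) tendsto_id)
  have h7 : L = 0 := tendsto_nhds_unique h6 h4
  rw [h7] at hL
  exact hL

end Pool.Agent.Helper90.ST
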